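import Pool.Agent.Helper98.Loew.Main

open MeasureTheory Module

namespace Pool.Agent.Results.MP_be4961_gt.OnePlane

/-- A convex body in three-dimensional Euclidean space: a compact convex set with nonempty
interior. -/
def IsConvexBody (K : Set (EuclideanSpace ℝ (Fin 3))) : Prop :=
  IsCompact K ∧ Convex ℝ K ∧ (interior K).Nonempty

/-- The centroid `(1 / vol K) ∫_K x dx`. -/
noncomputable def centroid (K : Set (EuclideanSpace ℝ (Fin 3))) : EuclideanSpace ℝ (Fin 3) :=
  ((volume K).toReal)⁻¹ • ∫ x in K, x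

/-- The centroid `(1 / area (K ∩ H)) ∫_{K ∩ H} x dA` of the section `K ∩ H`, where the area
measure is Mathlib's two-dimensional Euclidean Hausdorff measure `μHE[2]`, which is Lebesgue
measure (area) on every plane. -/
noncomputable def sectionCentroid (K : Set (EuclideanSpace ℝ (Fin 3)))
    (H : AffineSubspace ℝ (EuclideanSpace ℝ (Fin 3))) : EuclideanSpace ℝ (Fin 3) :=
  (((μHE[2] : Measure (EuclideanSpace ℝ (Fin 3))) (K ∩ (H : Set (EuclideanSpace ℝ (Fin 3))))).toReal)⁻¹ •
    ∫ x in K ∩ (H : Set (EuclideanSpace ℝ (Fin 3))), x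
      ∂(μHE[2] : Measure (EuclideanSpace ℝ (Fin 3)))

/-- `H` is a plane through the centroid `g` of `K` such that the centroid of `K ∩ H` is `g`. -/
def IsCentroidalPlane (K : Set (EuclideanSpace ℝ (Fin 3)))
    (H : AffineSubspace ℝ (EuclideanSpace ℝ (Fin 3))) : Prop :=
  finrank ℝ H.direction = 2 ∧ centroid K ∈ H ∧ sectionCentroid K H = centroid K

/-- There is a convex body in three-dimensional space with exactly one centroidal plane. -/
theorem result : ∃ K : Set (EuclideanSpace ℝ (Fin 3)),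
    IsConvexBody K ∧ ∃! H : AffineSubspace ℝ (EuclideanSpace ℝ (Fin 3)), IsCentroidalPlane K H := by
  obtain ⟨K, hc, hconv, hint, hI, H0, hH0, huniq⟩ := Loewner.main
  have hcen : centroid K = 0 := by
    unfold centroid; rw [hI, smul_zero]
  have key : ∀ H : AffineSubspace ℝ (EuclideanSpace ℝ (Fin 3)), IsCentroidalPlane K H ↔
      (finrank ℝ H.direction = 2 ∧ (0 : EuclideanSpace ℝ (Fin 3)) ∈ H ∧
      (⨍ x in K ∩ (H : Set (EuclideanSpace ℝ (Fin 3))), x
        ∂(μHE[2] : Measure (EuclideanSpace ℝ (Fin 3)))) = 0) := by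
    intro H
    unfold IsCentroidalPlane
    rw [hcen]
    unfold sectionCentroid
    rw [setAverage_eq]
    rfl
  refine ⟨K, ⟨hc, hconv, ⟨0, hint⟩⟩, H0, (key H0).mpr hH0, ?_⟩
  intro H hH
  exact huniq H ((key H).mp hH)

end Pool.Agent.Results.MP_be4961_gt.OnePlane
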